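import Mathlib
import Pool.Agent.Lib.MP_da270e_gt.Bridge

/-!
An open set of metrics on the sphere without opposite segments (earlier hand-in, now a corollary
of the sharp angle theorem, see `SA/Impl`).
-/

set_option autoImplicit false

namespace Pool.Agent.Old.MP_da270e_gt.NoOpposite

open Pool.Agent.Lib.MP_da270e_gt.Stmt

theorem result :
    ∃ (g₀ : E → Fin 3 → Fin 3 → ℝ) (δ : ℝ), IsMetric g₀ ∧ 0 < δ ∧
      ∀ g : E → Fin 3 → Fin 3 → ℝ, IsMetric g → C1Close δ g g₀ → ¬ HasOppositeSegments g :=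
  ⟨Pool.Agent.Lib.MP_da270e_gt.m0 (1 / 10 ^ 13), (1 / 10 ^ 13) ^ 2,
    Pool.Agent.Lib.MP_da270e_gt.isMetric_m0 (by norm_num) (by norm_num), by norm_num,
    fun _ hg hcl => Pool.Agent.Lib.MP_da270e_gt.no_opposite' (by norm_num) le_rfl hg hcl⟩

end Pool.Agent.Old.MP_da270e_gt.NoOpposite
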